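import Pool.Agent.H.MP_216555_lc.k.ThinS

/-!
# Colors of small valency in m-schemes, m constant
-/

namespace Pool.Agent.Results.MP_216555_lc.ThinColors

open MS216

theorem result (K : ℕ) (hK : 2 ≤ K) (V : Type) [Fintype V] (m : ℕ) (X : MScheme V m)
    (hm : 6 * K ^ 8 + 6 ≤ m) (hn : K ^ K ^ (721 * K ^ 8) ≤ Fintype.card V)
    (hX : X.Homogeneous) (h3 : X.NoThreeCycle) :
    ∃ s, s ≤ 6 * K ^ 8 ∧ ∃ (x : Fin (s + 2) ↪ V) (i j : Fin (s + 2)), i < j ∧
      del i '' X.color x = del j '' X.color x ∧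
      K ^ (s + 1) * (X.color x).ncard < Fintype.card V * (del i '' X.color x).ncard :=
  thinMain K hK V m X hm hn hX h3

end Pool.Agent.Results.MP_216555_lc.ThinColors
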